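import Mathlib

set_option autoImplicit false
open Complex Filter Topology Set Asymptotics

namespace Pool.Agent.H.MP_6079fc_an

noncomputable def E (σ : ℝ) (z : ℂ) : ℂ := exp (σ * I * exp z)

lemma nE (σ : ℝ) (z : ℂ) : ‖E σ z‖ = Real.exp (-(σ * Real.exp z.re * Real.sin z.im)) := by
  rw [E, norm_exp]; congr 1; simp [exp_re, exp_im]; ring

lemma dE (σ : ℝ) : Differentiable ℂ (E σ) := by unfold E; fun_prop

noncomputable def W (σ : ℝ) (z : ℂ) : ℂ := exp (σ * I / 2 * exp (z - σ / 2 * I) - z ^ 2)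

lemma nW (σ : ℝ) (z : ℂ) : ‖W σ z‖ =
    Real.exp (-(σ / 2 * Real.exp z.re * Real.sin (z.im - σ / 2)) - z.re ^ 2 + z.im ^ 2) := by
  rw [W, norm_exp]; congr 1; simp [exp_re, exp_im, pow_two]; ring

lemma dW (σ : ℝ) : Differentiable ℂ (W σ) := by unfold W; fun_prop

lemma key (σ : ℝ) (hσ : σ = 1 ∨ σ = -1) (v w : ℂ → ℂ) (C N : ℝ) (hC : 0 ≤ C) (hN : 0 ≤ N)
    (hw : DifferentiableOn ℂ w {z | |z.im| < 1})
    (bv : ∀ z : ℂ, |z.im| ≤ 1 / 2 → ‖v z‖ ≤ C * Real.exp (N * |z.re|))
    (bw : ∀ z : ℂ, |z.im| ≤ 1 / 2 → ‖w z‖ ≤ C * Real.exp (N * |z.re|))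
    (h : ∀ z : ℂ, |z.im| < 1 → v z * E σ z + w z * E (-σ) z = 1) :
    Tendsto (fun x : ℝ => ‖w x‖) atTop (𝓝 0) := by
  set G : ℂ → ℂ := fun z => w z * E (-σ) z * W σ z with hG
  have sp : 0 < Real.sin (1 / 2) := Real.sin_pos_of_pos_of_le_two (by norm_num) (by norm_num)
  have s1 : σ * Real.sin (σ / 2) = Real.sin (1 / 2) := by
    rcases hσ with rfl | rfl
    · simp
    · rw [neg_div, Real.sin_neg]; ring
  have s2 : σ * Real.sin σ ≤ 2 * Real.sin (1 / 2) := by
    have e : σ * Real.sin σ = Real.sin (2 * (1 / 2)) := by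
      rcases hσ with rfl | rfl <;> simp
    rw [e, Real.sin_two_mul]; nlinarith [Real.cos_le_one (1 / 2)]
  have sa : |σ| = 1 := by rcases hσ with rfl | rfl <;> simp
  have sq : σ ^ 2 = 1 := by rcases hσ with rfl | rfl <;> simp
  set D := (1 + C) * Real.exp (N ^ 2 + 1) with hD
  have q : ∀ x t : ℝ, t ≤ 0 → (1 + C) * Real.exp (N * |x|) * Real.exp (t - x ^ 2 + (σ / 2) ^ 2) ≤ D :=
    fun x t ht => by
      rw [mul_assoc, ← Real.exp_add]
      refine mul_le_mul_of_nonneg_left (Real.exp_le_exp.2 ?_) (by linarith)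
      nlinarith [sq_abs x, sq_nonneg (N - |x|), sq_nonneg N, sq_nonneg x]
  have l1 : ∀ z : ℂ, z.im = σ / 2 → ‖G z‖ ≤ D := fun z hz => by
    have a : |z.im| = 1 / 2 := by rw [hz, abs_div, sa]; simp
    have e : w z * E (-σ) z = 1 - v z * E σ z := by rw [← h z (by linarith)]; ring
    have b : ‖E σ z‖ ≤ 1 := by
      rw [nE, Real.exp_le_one_iff, hz, mul_right_comm, s1]; exact neg_nonpos.2 (by positivity)
    have o : 1 ≤ Real.exp (N * |z.re|) := Real.one_le_exp (by positivity)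
    have c : ‖1 - v z * E σ z‖ ≤ (1 + C) * Real.exp (N * |z.re|) := by
      refine (norm_sub_le _ _).trans ?_
      rw [norm_one, norm_mul]
      nlinarith [bv z a.le, norm_nonneg (v z), norm_nonneg (E σ z)]
    simp only [hG]
    rw [e, norm_mul, nW]
    refine le_trans (mul_le_mul_of_nonneg_right c (by positivity)) ?_
    rw [hz]; exact q _ _ (by simp)
  have l2 : ∀ z : ℂ, z.im = -(σ / 2) → ‖G z‖ ≤ D := fun z hz => by
    have a : |z.im| = 1 / 2 := by rw [hz, abs_neg, abs_div, sa]; simp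
    simp only [hG]
    rw [norm_mul, norm_mul, nW, nE, mul_assoc, ← Real.exp_add, hz,
      show -(σ / 2) - σ / 2 = -σ by ring, Real.sin_neg, Real.sin_neg]
    have := q z.re (-(-σ * Real.exp z.re * -Real.sin (σ / 2)) +
      -(σ / 2 * Real.exp z.re * -Real.sin σ)) (by nlinarith [Real.exp_pos z.re])
    refine le_trans (mul_le_mul ((bw z a.le).trans ?_) (le_of_eq ?_) (by positivity)
      (by positivity)) this
    · nlinarith [Real.exp_pos (N * |z.re|)]
    · congr 1; ring
  have pl : ∀ x : ℝ, ‖G x‖ ≤ D := fun x => by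
    refine PhragmenLindelof.horizontal_strip (a := -(1 / 2)) (b := 1 / 2) (f := G) ?_
      ⟨1, ?_, N + 3, ?_⟩ ?_ ?_ (by simp) (by simp)
    · refine DifferentiableOn.diffContOnCl ?_
      refine ((hw.mono ?_).mul (dE _).differentiableOn).mul (dW _).differentiableOn
      refine (closure_minimal (preimage_mono Ioo_subset_Icc_self)
        (isClosed_Icc.preimage continuous_im)).trans fun z hz => ?_
      have hz' : z.im ∈ Icc (-(1 / 2) : ℝ) (1 / 2) := hz
      show |z.im| < 1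
      exact abs_lt.2 ⟨by linarith [hz'.1], by linarith [hz'.2]⟩
    · norm_num; linarith [Real.pi_gt_three]
    · refine IsBigO.of_bound C (mem_inf_of_right (mem_principal.2 fun z hz => ?_))
      have a : |z.im| ≤ 1 / 2 := abs_le.2 ⟨hz.1.le, hz.2.le⟩
      simp only [mem_ofPred_eq, hG]
      rw [norm_mul, norm_mul, nW, nE, mul_assoc, ← Real.exp_add, Real.norm_eq_abs,
        abs_of_pos (Real.exp_pos _), one_mul]
      refine (mul_le_mul_of_nonneg_right (bw z a) (by positivity)).trans ?_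
      rw [mul_assoc, ← Real.exp_add]
      refine mul_le_mul_of_nonneg_left (Real.exp_le_exp.2 ?_) hC
      have e1 := Real.add_one_le_exp |z.re|
      have e2 : Real.exp z.re ≤ Real.exp |z.re| := Real.exp_le_exp.2 (le_abs_self _)
      have e3 := Real.exp_pos z.re
      have t : ∀ y, -1 ≤ σ * Real.sin y ∧ σ * Real.sin y ≤ 1 := fun y => abs_le.1 (by
        rw [abs_mul, sa, one_mul]; exact Real.abs_sin_le_one y)
      have a2 : z.im ^ 2 ≤ 1 := by nlinarith [hz.1, hz.2]
      nlinarith [t z.im, t (z.im - σ / 2), abs_nonneg z.re, sq_nonneg z.re,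
        mul_le_mul_of_nonneg_left (t z.im).2 e3.le,
        mul_le_mul_of_nonneg_left (t (z.im - σ / 2)).1 e3.le,
        mul_le_mul_of_nonneg_left e1 hN]
    · intro z hz
      rcases hσ with rfl | rfl
      · exact l2 z hz
      · exact l1 z (by rw [hz]; ring)
    · intro z hz
      rcases hσ with rfl | rfl
      · exact l1 z hz
      · exact l2 z (by rw [hz]; ring)
  have T : Tendsto (fun x : ℝ => D * Real.exp (x ^ 2 - Real.sin (1 / 2) / 2 * Real.exp x))
      atTop (𝓝 (D * 0)) := by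
    refine (Real.tendsto_exp_atBot.comp ?_).const_mul D
    have := (Real.tendsto_exp_div_pow_atTop 2).const_mul_atTop (half_pos sp)
    have t2 := (tendsto_pow_atTop (α := ℝ) two_ne_zero).atTop_mul_atTop₀
      (tendsto_atTop_add_const_right _ (-1) this)
    refine (tendsto_neg_atTop_atBot.comp t2).congr' ?_
    filter_upwards [eventually_gt_atTop 0] with x hx
    simp only [Function.comp]; field_simp; ring
  rw [mul_zero] at T
  refine squeeze_zero (fun _ => norm_nonneg _) (fun x => ?_) T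
  have := pl x
  simp only [hG] at this
  rw [norm_mul, norm_mul, nW, nE] at this
  simp only [ofReal_im, ofReal_re, Real.sin_zero, mul_zero, neg_zero, Real.exp_zero, mul_one,
    zero_sub, Real.sin_neg] at this
  rw [← le_div_iff₀ (Real.exp_pos _), div_eq_mul_inv, ← Real.exp_neg] at this
  refine this.trans (le_of_eq ?_)
  congr 2; rw [← s1]; ring

abbrev V := EuclideanSpace ℂ (Fin 1)

noncomputable def δ (s : V) : ℝ := max 0 (min (1 - |(s 0).im|) (Real.exp (-‖s‖)))

lemma nV (s : V) : ‖s‖ = ‖s 0‖ := by simp [EuclideanSpace.norm_eq]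

lemma δ0 (s : V) : 0 ≤ δ s := le_max_left _ _

lemma δe (s : V) : δ s ≤ Real.exp (-‖s‖) := max_le (Real.exp_pos _).le (min_le_right _ _)

lemma δp (s : V) : 0 < δ s ↔ |(s 0).im| < 1 := by
  simp [δ, Real.exp_pos]

lemma δL : LipschitzWith 1 δ := by
  have a : LipschitzWith 1 fun s : V => 1 - |(s 0).im| := LipschitzWith.of_dist_le_mul fun s t => by
    rw [Real.dist_eq, dist_eq_norm, nV, sub_sub_sub_cancel_left, abs_sub_comm, NNReal.coe_one,
      one_mul]
    exact (abs_abs_sub_abs_le_abs_sub _ _).trans (abs_im_le_norm ((s - t) 0))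
  have b : LipschitzWith 1 fun s : V => Real.exp (-‖s‖) := by
    refine LipschitzWith.of_le_add_mul 1 fun s t => ?_
    rw [NNReal.coe_one, one_mul, dist_eq_norm]
    have e := Real.add_one_le_exp (-‖t‖ - -‖s‖)
    have p := Real.exp_pos (-‖s‖)
    have o : Real.exp (-‖s‖) ≤ 1 := Real.exp_le_one_iff.2 (neg_nonpos.2 (norm_nonneg _))
    have m := mul_le_mul_of_nonneg_left e p.le
    rw [← Real.exp_add, add_sub_cancel] at m
    have n := norm_sub_norm_le t s
    rw [norm_sub_rev] at n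
    nlinarith [norm_nonneg (s - t)]
  have := (a.min b).const_max 0
  rw [max_self] at this
  exact this

lemma δm (a w : V) (h1 : 0 < δ (a + w)) (h2 : 0 < δ (a - w)) :
    Real.log (δ (a + w)) + Real.log (δ (a - w)) ≤ 2 * Real.log (δ a) := by
  rw [← Real.log_mul h1.ne' h2.ne', show (2:ℝ) = (2:ℕ) by norm_num, ← Real.log_pow]
  refine Real.log_le_log (mul_pos h1 h2) ?_
  have c : ∀ s, 0 < δ s → δ s ≤ 1 - |(s 0).im| := fun s hs =>
    max_le (sub_pos.2 ((δp s).1 hs)).le (min_le_left _ _)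
  have t : 2 * |(a 0).im| ≤ |((a + w) 0).im| + |((a - w) 0).im| := by
    refine le_trans (le_of_eq ?_) (abs_add_le _ _)
    rw [show ((a + w) 0).im + ((a - w) 0).im = 2 * (a 0).im by simp; ring, abs_mul, abs_two]
  have u : 2 * ‖a‖ ≤ ‖a + w‖ + ‖a - w‖ := by
    refine le_trans (le_of_eq ?_) (norm_add_le _ _)
    rw [show a + w + (a - w) = (2:ℝ) • a by rw [two_smul]; abel, norm_smul]; simp
  have a1 : |(a 0).im| < 1 := by linarith [(δp _).1 h1, (δp _).1 h2]
  have e : δ a = min (1 - |(a 0).im|) (Real.exp (-‖a‖)) :=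
    max_eq_right (le_min (sub_pos.2 a1).le (Real.exp_pos _).le)
  rw [e]
  rcases min_choice (1 - |(a 0).im|) (Real.exp (-‖a‖)) with h | h <;> rw [h]
  · nlinarith [c _ h1, c _ h2, sq_nonneg (δ (a + w) - δ (a - w))]
  · refine (mul_le_mul (δe _) (δe _) h2.le (Real.exp_pos _).le).trans ?_
    rw [sq, ← Real.exp_add, ← Real.exp_add]
    exact Real.exp_le_exp.2 (by linarith)

lemma δs (a b : V) (h : ∀ ζ : ℂ, ‖ζ‖ ≤ 1 → 0 < δ (a + ζ • b)) :
    (∫ θ in (0:ℝ)..(2 * Real.pi), Real.log (δ (a + exp ((θ : ℂ) * I) • b)))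
      ≤ 2 * Real.pi * Real.log (δ a) := by
  set F : ℝ → ℝ := fun θ => Real.log (δ (a + exp ((θ : ℂ) * I) • b)) with hF
  have p : ∀ θ : ℝ, 0 < δ (a + exp ((θ : ℂ) * I) • b) := fun θ =>
    h _ (norm_exp_ofReal_mul_I θ).le
  have c : Continuous F :=
    (δL.continuous.comp (by fun_prop)).log fun θ => (p θ).ne'
  have s : ∀ θ : ℝ, F θ + F (θ + Real.pi) ≤ 2 * Real.log (δ a) := fun θ => by
    have e : a + exp (((θ + Real.pi : ℝ) : ℂ) * I) • b = a - exp ((θ : ℂ) * I) • b := by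
      rw [ofReal_add, add_mul, exp_add, exp_pi_mul_I, mul_neg_one, neg_smul, sub_eq_add_neg]
    simp only [hF]
    have := p (θ + Real.pi)
    rw [e] at this ⊢
    exact δm _ _ (p θ) this
  rw [← intervalIntegral.integral_add_adjacent_intervals (b := Real.pi)
    (c.intervalIntegrable _ _) (c.intervalIntegrable _ _)]
  have e := intervalIntegral.integral_comp_add_right (a := 0) (b := Real.pi) F Real.pi
  rw [zero_add, ← two_mul] at e
  have c2 : Continuous fun θ => F (θ + Real.pi) := c.comp (by fun_prop)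
  rw [← e, ← intervalIntegral.integral_add (c.intervalIntegrable _ _) (c2.intervalIntegrable _ _)]
  refine (intervalIntegral.integral_mono_on Real.pi_pos.le ((c.add c2).intervalIntegrable _ _)
    intervalIntegrable_const fun θ _ => s θ).trans (le_of_eq ?_)
  simp; ring

lemma δl (s : V) (h : |(s 0).im| ≤ 1 / 2) : Real.exp (-(|(s 0).re| + 1)) ≤ δ s := by
  refine le_max_of_le_right (le_min ?_ (Real.exp_le_exp.2 ?_))
  · have := Real.exp_neg_one_lt_half
    have e : Real.exp (-(|(s 0).re| + 1)) ≤ Real.exp (-1) :=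
      Real.exp_le_exp.2 (by linarith [abs_nonneg (s 0).re])
    linarith
  · rw [nV]; linarith [norm_le_abs_re_add_abs_im (s 0)]

noncomputable def g (z : ℂ) : ℂ := exp (-2 * exp z)

lemma ng (σ : ℝ) (hσ : |σ| ≤ 1) (z : ℂ) (h : |z.im| < 1) : ‖g z * E σ z‖ ≤ 1 := by
  have e : ‖g z‖ = Real.exp (-(2 * Real.exp z.re * Real.cos z.im)) := by
    rw [g, norm_exp]; congr 1; simp [exp_re, exp_im]; ring
  rw [norm_mul, e, nE, ← Real.exp_add, Real.exp_le_one_iff]
  have c := Real.one_sub_sq_div_two_le_cos (x := z.im)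
  have s : |σ * Real.sin z.im| ≤ 1 := by
    rw [abs_mul]; exact mul_le_one₀ hσ (abs_nonneg _) (Real.abs_sin_le_one _)
  have q : z.im ^ 2 ≤ 1 := by rw [← sq_abs]; nlinarith [abs_nonneg z.im]
  nlinarith [mul_nonneg (Real.exp_pos z.re).le
    (show 0 ≤ 2 * Real.cos z.im + σ * Real.sin z.im by linarith [(abs_le.1 s).1])]

lemma loc (σ : ℝ) (hσ : σ = 1 ∨ σ = -1) (s z : ℂ) (hs : 0 ≤ σ * s.im) (h1 : |s.im| < 1)
    (hz : ‖z - s‖ < 1 / 2 * Real.exp (-‖s‖)) : ‖E σ z‖ < 3 := by
  have o : Real.exp (-‖s‖) ≤ 1 := Real.exp_le_one_iff.2 (neg_nonpos.2 (norm_nonneg _))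
  have i := abs_lt.1 ((abs_im_le_norm (z - s)).trans_lt hz)
  have r := abs_lt.1 ((abs_re_le_norm (z - s)).trans_lt hz)
  rw [sub_im] at i; rw [sub_re] at r
  have e : σ * Real.sin z.im = Real.sin (σ * z.im) := by rcases hσ with rfl | rfl <;> simp
  have y : -(1 / 2 * Real.exp (-‖s‖)) ≤ σ * z.im ∧ σ * z.im ≤ 2 := by
    have := abs_lt.1 h1
    rcases hσ with rfl | rfl <;> constructor <;> linarith [i.1, i.2]
  rw [nE, mul_right_comm, e]
  refine lt_of_le_of_lt (Real.exp_le_exp.2 ?_) Real.exp_one_lt_three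
  rcases le_total 0 (σ * z.im) with p | p
  · have := Real.sin_nonneg_of_nonneg_of_le_pi p (by linarith [Real.pi_gt_three])
    nlinarith [Real.exp_pos z.re]
  · have a := Real.sin_le (neg_nonneg.2 p)
    rw [Real.sin_neg] at a
    have b : Real.exp (-‖s‖) * Real.exp z.re ≤ Real.exp (1 / 2) := by
      rw [← Real.exp_add]; exact Real.exp_le_exp.2 (by linarith [re_le_norm s])
    have c : Real.exp (1 / 2) ≤ 2 := by
      have : Real.exp (1 / 2) * Real.exp (1 / 2) = Real.exp 1 := by rw [← Real.exp_add]; norm_num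
      nlinarith [Real.exp_one_lt_three, Real.exp_pos (1 / 2)]
    nlinarith [Real.exp_pos z.re]

end Pool.Agent.H.MP_6079fc_an
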