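import Pool.Agent.H.MP_6079fc_an.A

set_option autoImplicit false
open Complex Filter Topology Set Asymptotics

namespace Pool.Agent.H.MP_6079fc_an

lemma dg : Differentiable ℂ g := by unfold g; fun_prop

lemma d0 : Differentiable ℂ fun s : V => s 0 := by fun_prop

lemma EE (σ : ℝ) (z : ℂ) : E σ z * E (-σ) z = 1 := by rw [E, E, ← exp_add]; simp

lemma E0 (z : ℂ) : E 0 z = 1 := by simp [E]

noncomputable def F (σ : ℝ) (s : V) (_ : Fin 1) : ℂ := g (s 0) * E σ (s 0)

noncomputable def f (i : Fin 2) : V → Fin 1 → ℂ := F (![1, -1] i)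

lemma mem (σ : ℝ) (hσ : |σ| ≤ 1) : DifferentiableOn ℂ (F σ) {s | 0 < δ s} ∧
    ∃ N : ℕ, ∃ C : ℝ, ∀ z, 0 < δ z → δ z ^ N * ‖F σ z‖ ≤ C := by
  refine ⟨Differentiable.differentiableOn (differentiable_pi.2 fun _ => ?_), 0, 1, fun z hz => ?_⟩
  · exact (dg.comp d0).mul ((dE σ).comp d0)
  · rw [pow_zero, one_mul]
    exact (pi_norm_const _).le.trans (ng σ hσ _ ((δp z).1 hz))

lemma lc (s : V) (hs : 0 < δ s) : ∃ u : Fin 2 → V → ℂ,
    (∀ i, DifferentiableOn ℂ (u i) (Metric.ball s (1 / 2 * δ s))) ∧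
    (∀ z ∈ Metric.ball s (1 / 2 * δ s), F 0 z = ∑ i, u i z • f i z) ∧
    (∀ i, ∀ z ∈ Metric.ball s (1 / 2 * δ s), ‖u i z‖ < 3 / δ s ^ 0) := by
  have b : ∀ z ∈ Metric.ball s (1 / 2 * δ s),
      ‖z 0 - s 0‖ < 1 / 2 * Real.exp (-‖s 0‖) := fun z hz => by
    rw [mem_ball_iff_norm, nV] at hz
    have := δe s
    rw [nV] at this
    exact lt_of_lt_of_le hz (by linarith)
  rcases le_total 0 (s 0).im with p | p
  · refine ⟨![0, fun z => E 1 (z 0)], fun i => ?_, fun z _ => ?_, fun i z hz => ?_⟩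
    · fin_cases i
      · exact differentiableOn_const 0
      · exact ((dE 1).comp d0).differentiableOn
    · ext j; simp [f, F, E0, mul_left_comm, EE]
    · fin_cases i
      · simp
      · simpa using loc 1 (Or.inl rfl) _ _ (by simpa using p) ((δp s).1 hs) (b z hz)
  · refine ⟨![fun z => E (-1) (z 0), 0], fun i => ?_, fun z _ => ?_, fun i z hz => ?_⟩
    · fin_cases i
      · exact ((dE (-1)).comp d0).differentiableOn
      · exact differentiableOn_const 0
    · ext j; simp [f, F, E0, mul_comm (E (-1) _), mul_assoc, EE]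
    · fin_cases i
      · simpa using loc (-1) (Or.inr rfl) _ _ (by simpa using p) ((δp s).1 hs) (b z hz)
      · simp

lemma gl (h : Fin 2 → V → ℂ) (h1 : ∀ i, DifferentiableOn ℂ (h i) {s | 0 < δ s} ∧
      ∃ N : ℕ, ∃ C : ℝ, ∀ z, 0 < δ z → δ z ^ N * ‖h i z‖ ≤ C)
    (h2 : ∀ z, 0 < δ z → F 0 z = ∑ i, h i z • f i z) : False := by
  obtain ⟨T, T0, dT⟩ : ∃ T : ℂ → V, (∀ z, T z 0 = z) ∧ Differentiable ℂ T := by
    refine ⟨fun z => EuclideanSpace.single 0 z, fun z => by simp,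
      differentiable_euclidean.2 fun i => ?_⟩
    rw [Subsingleton.elim i 0]; simp
  have Tp : ∀ z : ℂ, |z.im| < 1 → 0 < δ (T z) := fun z hz => (δp _).2 (by rwa [T0])
  have dh : ∀ i, DifferentiableOn ℂ (fun z => h i (T z)) {z | |z.im| < 1} := fun i =>
    (h1 i).1.comp dT.differentiableOn Tp
  choose N C hC using fun i => (h1 i).2
  have bh : ∀ i (z : ℂ), |z.im| ≤ 1 / 2 → ‖h i (T z)‖ ≤
      (|C 0| + |C 1|) * Real.exp (N 0 + N 1) * Real.exp ((N 0 + N 1) * |z.re|) := fun i z hz => by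
    have a := hC i _ (Tp z (by linarith))
    have b := δl (T z) (by rwa [T0])
    rw [T0] at b
    have c := (mul_le_mul_of_nonneg_right (pow_le_pow_left₀ (Real.exp_pos _).le b (N i))
      (norm_nonneg _)).trans a
    rw [← Real.exp_nat_mul, mul_neg, Real.exp_neg, inv_mul_le_iff₀ (Real.exp_pos _)] at c
    rw [mul_assoc, ← Real.exp_add, mul_comm]
    have n : (N i : ℝ) ≤ N 0 + N 1 := by fin_cases i <;> simp
    have m : |C i| ≤ |C 0| + |C 1| := by fin_cases i <;> simp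
    refine c.trans ((mul_le_mul_of_nonneg_left (le_abs_self _) (Real.exp_pos _).le).trans
      (mul_le_mul (Real.exp_le_exp.2 ?_) m (abs_nonneg _) (Real.exp_pos _).le))
    nlinarith [abs_nonneg z.re]
  have id : ∀ z : ℂ, |z.im| < 1 → h 0 (T z) * E 1 z + h 1 (T z) * E (-1) z = 1 := fun z hz => by
    have := congrFun (h2 _ (Tp z hz)) 0
    simp only [f, F, T0, E0, Fin.sum_univ_two, Pi.add_apply, Pi.smul_apply, smul_eq_mul,
      Matrix.cons_val_zero, Matrix.cons_val_one] at this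
    refine mul_left_cancel₀ (show g z ≠ 0 from exp_ne_zero _) ?_
    rw [this]; ring
  have k1 := key 1 (Or.inl rfl) _ _ _ _ (by positivity) (by positivity) (dh 1) (bh 0) (bh 1) id
  have k2 := key (-1) (Or.inr rfl) _ _ _ _ (by positivity) (by positivity) (dh 0) (bh 1) (bh 0)
    fun z hz => by rw [neg_neg, add_comm]; exact id z hz
  have := ge_of_tendsto' (b := 1) (k2.add k1) fun x => by
    have e := norm_add_le (h 0 (T x) * E 1 x) (h 1 (T x) * E (-1) x)
    rw [id x (by simp), norm_mul, norm_mul, nE, nE] at e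
    simpa using e
  norm_num at this

end Pool.Agent.H.MP_6079fc_an
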